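import Pool.Agent.Helper31.QB.Final

/-!
# Corollary for constant words (not a hand-in): every real quadratic field contains infinitely many numbers with purely
periodic partial quotients from a fixed finite set, in which the digits outside of the set
{1, 2} are isolated and as far apart as desired; more generally any prescribed word of even
length may fill up nearly the whole expansion.
-/

set_option autoImplicit false

namespace Pool.Agent.Helper31.QB.Cor

/-- D lists the partial quotients, after the integer part, of a number p + q sqrt d with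
p, q rational and q nonzero -/
def Quotients (d : ℕ) (D : ℕ → ℕ) : Prop :=
  ∃ p q : ℚ, q ≠ 0 ∧ ∀ n : ℕ,
    (GenContFract.of ((p : ℝ) + (q : ℝ) * Real.sqrt (d : ℝ))).partDens.get? n =
      some ((D n : ℕ) : ℝ)

/-- D is purely periodic with minimal period L -/
def MinPeriod (D : ℕ → ℕ) (L : ℕ) : Prop :=
  IsLeast {l : ℕ | 0 < l ∧ ∀ n, D (n + l) = D n} L

/-- D consists of pieces: four connecting digits, of which at least three are 1 or 2, and
then the word v or its reverse -/
def Pieces (v : List ℕ) (D : ℕ → ℕ) : Prop :=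
  ∀ k : ℕ,
    (∃ i < 4, ∀ r < 4, r ≠ i →
      D ((v.length + 4) * k + r) = 1 ∨ D ((v.length + 4) * k + r) = 2) ∧
    ((List.range v.length).map (fun r => D ((v.length + 4) * k + 4 + r)) = v ∨
      (List.range v.length).map (fun r => D ((v.length + 4) * k + 4 + r)) = v.reverse)

theorem aux (a n : ℕ) (D : ℕ → ℕ) (h : Pieces (List.replicate (2 * n) a) D) :
    (∀ i, (2 * n + 4) * (i / (2 * n + 4)) + i % (2 * n + 4) = i) ∧
    (∀ i, D i ≠ a → i % (2 * n + 4) < 4) ∧
    (∀ p q, p < q → (D p ≠ 1 ∧ D p ≠ 2 ∧ D p ≠ a) → (D q ≠ 1 ∧ D q ≠ 2 ∧ D q ≠ a) →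
      p + n ≤ q) := by
  have hdm : ∀ i, (2 * n + 4) * (i / (2 * n + 4)) + i % (2 * n + 4) = i := fun i =>
    Nat.div_add_mod i (2 * n + 4)
  have h4 : ∀ i, D i ≠ a → i % (2 * n + 4) < 4 := by
    intro i hi
    by_contra hlt
    rw [not_lt] at hlt
    apply hi
    obtain ⟨-, h2⟩ := h (i / (2 * n + 4))
    rw [List.reverse_replicate, or_self, List.length_replicate] at h2
    have hr : i % (2 * n + 4) - 4 < 2 * n := by
      have := Nat.mod_lt i (show 0 < 2 * n + 4 by omega)
      omega
    have h3 := congrArg (fun l : List ℕ => l.getD (i % (2 * n + 4) - 4) 0) h2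
    beta_reduce at h3
    rw [List.getD_eq_getElem _ _ (by simpa using hr),
      List.getD_eq_getElem _ _ (by simpa using hr), List.getElem_map, List.getElem_range,
      List.getElem_replicate] at h3
    rw [← h3]
    congr 1
    have := hdm i
    omega
  refine ⟨hdm, h4, ?_⟩
  intro p q hpq hp hq
  have hp4 := h4 p hp.2.2
  have hq4 := h4 q hq.2.2
  have ep := hdm p
  have eq := hdm q
  by_cases hk : p / (2 * n + 4) = q / (2 * n + 4)
  · exfalso
    obtain ⟨⟨i, hi, h1⟩, -⟩ := h (p / (2 * n + 4))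
    rw [List.length_replicate] at h1
    have hpi : p % (2 * n + 4) = i := by
      by_contra hne
      have := h1 _ hp4 hne
      rw [ep] at this
      tauto
    have hqi : q % (2 * n + 4) = i := by
      by_contra hne
      have := h1 _ hq4 hne
      rw [hk, eq] at this
      tauto
    rw [hk, hpi] at ep
    rw [hqi] at eq
    omega
  · have hle : p / (2 * n + 4) ≤ q / (2 * n + 4) := Nat.div_le_div_right hpq.le
    have hlt : p / (2 * n + 4) + 1 ≤ q / (2 * n + 4) := by omega
    have := Nat.mul_le_mul_left (2 * n + 4) hlt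
    rw [Nat.mul_succ] at this
    omega

theorem both (d : ℕ) (hd2 : 2 ≤ d) (hd : Squarefree d) :
    (∀ v : List ℕ, (∀ a ∈ v, 1 ≤ a) → Even v.length →
      ∃ c c' : ℕ, ∀ K : ℕ, ∃ (D : ℕ → ℕ) (L : ℕ),
        Quotients d D ∧ MinPeriod D L ∧ K ≤ L ∧
        (∀ n, D n = 1 ∨ D n = 2 ∨ D n = c ∨ D n = c' ∨ D n ∈ v) ∧ Pieces v D) ∧
    (∀ a n : ℕ, 1 ≤ a →
      ∃ c c' : ℕ, ∀ K : ℕ, ∃ (D : ℕ → ℕ) (L : ℕ),
        Quotients d D ∧ MinPeriod D L ∧ K ≤ L ∧
        (∀ i, D i = 1 ∨ D i = 2 ∨ D i = a ∨ D i = c ∨ D i = c') ∧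
        (∀ i, ((Finset.range n).filter (fun r => D (i + r) ≠ a)).card ≤ 4) ∧
        (∀ p q, p < q → (D p ≠ 1 ∧ D p ≠ 2 ∧ D p ≠ a) → (D q ≠ 1 ∧ D q ≠ 2 ∧ D q ≠ a) →
          p + n ≤ q)) := by
  have hA := Pool.Agent.Helper31.QB.main d hd2 hd
  refine ⟨hA, ?_⟩
  intro a n ha
  obtain ⟨c, c', hK⟩ := hA (List.replicate (2 * n) a)
    (fun b hb => by rw [List.eq_of_mem_replicate hb]; exact ha)
    (by rw [List.length_replicate]; exact ⟨n, by ring⟩)
  refine ⟨c, c', fun K => ?_⟩
  obtain ⟨D, L, h1, h2, h3, h4, h5⟩ := hK K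
  obtain ⟨hdm, g4, g5⟩ := aux a n D h5
  refine ⟨D, L, h1, h2, h3, ?_, ?_, g5⟩
  · intro i
    rcases h4 i with h | h | h | h | h
    · tauto
    · tauto
    · tauto
    · tauto
    · have := List.eq_of_mem_replicate h
      tauto
  · intro i
    calc ((Finset.range n).filter (fun r => D (i + r) ≠ a)).card
        ≤ (Finset.range 4).card := by
          apply Finset.card_le_card_of_injOn (fun r => (i + r) % (2 * n + 4))
          · intro r hr
            rw [Finset.mem_coe, Finset.mem_filter] at hr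
            rw [Finset.mem_coe, Finset.mem_range]
            exact g4 _ hr.2
          · intro r hr s hs hrs
            rw [Finset.mem_coe, Finset.mem_filter, Finset.mem_range] at hr hs
            have h6 : i + r ≡ i + s [MOD (2 * n + 4)] := hrs
            have h7 := Nat.ModEq.add_left_cancel' i h6
            unfold Nat.ModEq at h7
            rwa [Nat.mod_eq_of_lt (by omega), Nat.mod_eq_of_lt (by omega)] at h7
      _ = 4 := Finset.card_range 4

end Pool.Agent.Helper31.QB.Cor
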