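import Pool.Agent.Helper83.QF.CFSEQ
import Pool.Agent.Helper93.QF.FIELD

/-!
# A purely periodic word gives an element of the field, digits read from index 0

General version (arbitrary positive digits) of the field lemma of project QF.
-/

set_option autoImplicit false

namespace Pool.Agent.Helper31.QB

open Pool.Agent.Helper23.QF Pool.Agent.Helper93.QF

theorem field_word (w : List ℕ) (d f : ℕ) (hw1 : ∀ x ∈ w, 1 ≤ x) (hne : w ≠ [])
    (heven : Even w.length) (hf : 0 < f) (hd : (d : ℤ) * f ^ 2 = (M w).trace ^ 2 - 4) :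
    ∃ p q : ℚ, q ≠ 0 ∧ ∀ n : ℕ,
      (GenContFract.of ((p : ℝ) + (q : ℝ) * Real.sqrt (d : ℝ))).partDens.get? n =
        some ((w.getD (n % w.length) 0 : ℕ) : ℝ) := by
  have hr := M10_pos w hw1 hne
  have hq := M01_pos w hw1 hne
  obtain ⟨hp, -, -, hs, -⟩ := M_entries w hw1
  have hdet : M w 0 0 * M w 1 1 - M w 0 1 * M w 1 0 = 1 := by
    have := M_det w
    rw [heven.neg_one_pow, Matrix.det_fin_two] at this
    exact this
  rw [Matrix.trace_fin_two] at hd
  set p := M w 0 0 with hpdef
  set q := M w 0 1 with hqdef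
  set r := M w 1 0 with hrdef
  set s := M w 1 1 with hsdef
  have hrR : (1 : ℝ) ≤ (r : ℝ) := by exact_mod_cast hr
  have hqR : (1 : ℝ) ≤ (q : ℝ) := by exact_mod_cast hq
  have hpR : (1 : ℝ) ≤ (p : ℝ) := by exact_mod_cast hp
  have hsR : (0 : ℝ) ≤ (s : ℝ) := by exact_mod_cast hs
  have hdetR : (p : ℝ) * s - q * r = 1 := by exact_mod_cast hdet
  have hdR : (d : ℝ) * (f : ℝ) ^ 2 = ((p : ℝ) + s) ^ 2 - 4 := by exact_mod_cast hd
  have hd0 : (0 : ℝ) ≤ (d : ℝ) := Nat.cast_nonneg d
  have hf0 : (0 : ℝ) < (f : ℝ) := by exact_mod_cast hf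
  set g : ℝ := (f : ℝ) * Real.sqrt (d : ℝ) with hg
  have hg0 : 0 ≤ g := by positivity
  have hg2 : g ^ 2 = ((p : ℝ) + s) ^ 2 - 4 := by
    rw [hg, mul_pow, Real.sq_sqrt hd0, ← hdR]
    ring
  have hgt : |(p : ℝ) - s| < g := by
    apply abs_lt_of_sq_lt_sq _ hg0
    rw [hg2]
    nlinarith [mul_pos (lt_of_lt_of_le one_pos hqR) (lt_of_lt_of_le one_pos hrR)]
  have hgt2 := (abs_lt.1 hgt).1
  set X : ℝ := ((p : ℝ) - s + g) / (2 * r) with hX
  have hX0 : 0 < X := by
    apply div_pos
    · linarith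
    · linarith
  have hXr : 2 * (r : ℝ) * X = (p : ℝ) - s + g := by
    rw [hX]
    field_simp
  have hquad : X * ((r : ℝ) * X + s) = (p : ℝ) * X + q := by
    have h4 : 4 * (r : ℝ) * (X * ((r : ℝ) * X + s) - ((p : ℝ) * X + q)) = 0 := by
      have e1 : 4 * (r : ℝ) * (X * ((r : ℝ) * X + s) - ((p : ℝ) * X + q)) =
          (2 * (r : ℝ) * X) ^ 2 + 2 * (2 * (r : ℝ) * X) * (s - p) - 4 * (q * r) := by ring
      rw [e1, hXr]
      have e2 : (q : ℝ) * r = p * s - 1 := by linarith
      rw [e2]
      nlinarith [hg2]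
    have h5 : (4 : ℝ) * (r : ℝ) ≠ 0 := by positivity
    have := (mul_eq_zero.1 h4).resolve_left h5
    linarith
  obtain ⟨ha1, ha2⟩ := act_mul w hw1 X hX0
  have hfix : act w X = X := by
    have : act w X * ((r : ℝ) * X + s) = X * ((r : ℝ) * X + s) := by rw [ha1, hquad]
    exact mul_right_cancel₀ ha2.ne' this
  have hL : 0 < w.length := List.length_pos_iff.2 hne
  -- the sequences
  let x : ℕ → ℝ := fun i => act (w.drop (i % w.length)) X
  let u : ℕ → ℕ := fun i => w.getD (i % w.length) 0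
  have hu : ∀ i, ∃ hj : i % w.length < w.length, u i = w[i % w.length] := by
    intro i
    have hj := Nat.mod_lt i hL
    refine ⟨hj, ?_⟩
    show w.getD (i % w.length) 0 = _
    rw [List.getD_eq_getElem _ _ hj]
  have huw : ∀ i, u i ∈ w := by
    intro i
    obtain ⟨hj, e⟩ := hu i
    rw [e]
    exact List.getElem_mem hj
  have hrec : ∀ i, x i = u i + 1 / x (i + 1) := by
    intro i
    obtain ⟨hj, e⟩ := hu i
    show act (w.drop (i % w.length)) X = u i + 1 / act (w.drop ((i + 1) % w.length)) X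
    rw [List.drop_eq_getElem_cons hj, act_cons, e]
    congr 2
    by_cases hlt : i % w.length + 1 < w.length
    · have : (i + 1) % w.length = i % w.length + 1 := by
        rw [Nat.add_mod]
        rcases Nat.lt_or_ge 1 w.length with h1 | h1
        · rw [Nat.mod_eq_of_lt h1, Nat.mod_eq_of_lt hlt]
        · omega
      rw [this]
    · have heq : i % w.length + 1 = w.length := by omega
      have : (i + 1) % w.length = 0 := by
        have h1 : (i + 1) % w.length = (i % w.length + 1) % w.length := by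
          rw [Nat.mod_add_mod]
        rw [h1, heq, Nat.mod_self]
      rw [this, heq, List.drop_length, List.drop_zero, hfix, act_nil]
  have hx1 : ∀ i, 1 < x i := by
    intro i
    rw [hrec i]
    have h1 : 0 < x (i + 1) := act_pos _ _ hX0
    have h2 : 0 < 1 / x (i + 1) := one_div_pos.2 h1
    have h3 : (1 : ℝ) ≤ (u i : ℝ) := by exact_mod_cast hw1 _ (huw i)
    linarith
  have hx0 : x 0 = X := by
    show act (w.drop (0 % w.length)) X = X
    rw [Nat.zero_mod, List.drop_zero, hfix]
  -- one more digit in front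
  let x' : ℕ → ℝ := fun i => match i with
    | 0 => 1 + 1 / X
    | k + 1 => x k
  let u' : ℕ → ℕ := fun i => match i with
    | 0 => 1
    | k + 1 => u k
  have hx1' : ∀ i, 1 < x' i := by
    intro i
    cases i with
    | zero =>
      show 1 < 1 + 1 / X
      have : 0 < 1 / X := one_div_pos.2 hX0
      linarith
    | succ k => exact hx1 k
  have hrec' : ∀ i, x' i = ((u' i : ℕ) : ℝ) + 1 / x' (i + 1) := by
    intro i
    cases i with
    | zero =>
      show 1 + 1 / X = ((1 : ℕ) : ℝ) + 1 / x 0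
      rw [hx0, Nat.cast_one]
    | succ k => exact hrec k
  have hseq := Pool.Agent.Helper83.QF.gCFSEQ x' u' hx1' hrec'
  refine ⟨1 + ((s : ℚ) - p) / (2 * q), (f : ℚ) / (2 * q), ?_, ?_⟩
  · have : (q : ℚ) ≠ 0 := by
      have : (1 : ℚ) ≤ (q : ℚ) := by exact_mod_cast hq
      intro h0
      rw [h0] at this
      norm_num at this
    have hf' : (f : ℚ) ≠ 0 := by exact_mod_cast hf.ne'
    positivity
  · have e : (((1 + ((s : ℚ) - p) / (2 * q) : ℚ)) : ℝ) + (((f : ℚ) / (2 * q) : ℚ) : ℝ) * Real.sqrt (d : ℝ) = x' 0 := by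
      show _ = 1 + 1 / X
      have hq0 : (q : ℝ) ≠ 0 := by positivity
      have hXinv : 1 / X = ((s : ℝ) - p + g) / (2 * q) := by
        rw [div_eq_div_iff hX0.ne' (by positivity)]
        have hpos : (0 : ℝ) < 2 * r := by positivity
        apply mul_left_cancel₀ hpos.ne'
        have e3 : 2 * (r : ℝ) * (((s : ℝ) - p + g) * X) = ((s : ℝ) - p + g) * (2 * r * X) := by ring
        rw [e3, hXr]
        have e2 : (q : ℝ) * r = p * s - 1 := by linarith
        nlinarith [hg2, e2]
      rw [hXinv, hg]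
      push_cast
      ring
    rw [e]
    intro n
    exact hseq n

end Pool.Agent.Helper31.QB
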