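import Pool.Agent.Helper31.QB.Lists
import Pool.Agent.Helper31.QB.Field

/-!
# The construction: Pell equation, digits, minimal period
-/

set_option autoImplicit false

open scoped Matrix

namespace Pool.Agent.Helper31.QB

open Pool.Agent.Helper23.QF

/-- the part of the period behind the large digit -/
def rest (v : List ℕ) (c j : ℕ) : List ℕ :=
  2 :: (v ++ (([2, 1, 1, 1] ++ v.reverse) ++
    ((List.replicate j [[1, 1, c, 2] ++ v, [2, 1, 1, 1] ++ v.reverse]).flatten ++
      (([2, 1, 1, 1] ++ v) :: ([1, 1, 1, 2] ++ v.reverse) ::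
        (List.replicate j [[2, c, 1, 1] ++ v, [1, 1, 1, 2] ++ v.reverse]).flatten)).flatten))

theorem word_eq (v : List ℕ) (c c' j : ℕ) : word v c c' j = 1 :: 1 :: c' :: rest v c j := by
  simp only [word, pieces, rest, List.flatten_cons, List.cons_append, List.nil_append]

/-- bounds of the digits behind the large one -/
theorem rest_mem (v : List ℕ) (c j x : ℕ) (hx : x ∈ rest v c j) :
    x = 1 ∨ x = 2 ∨ x = c ∨ x ∈ v := by
  simp only [rest, List.mem_cons, List.mem_append, List.mem_flatten, List.mem_replicate,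
    List.mem_reverse, List.not_mem_nil, or_false] at hx
  have key : ∀ (a b e f : ℕ) (u : List ℕ), x ∈ [a, b, e, f] ++ u → (u = v ∨ u = v.reverse) →
      (∀ y ∈ [a, b, e, f], y = 1 ∨ y = 2 ∨ y = c) → x = 1 ∨ x = 2 ∨ x = c ∨ x ∈ v := by
    intro a b e f u h1 h2 h3
    rw [List.mem_append] at h1
    rcases h1 with h1 | h1
    · have := h3 x h1
      tauto
    · right; right; right
      rcases h2 with rfl | rfl
      · exact h1
      · exact List.mem_reverse.1 h1
  rcases hx with h | h | h | ⟨l, h, hxl⟩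
  · tauto
  · tauto
  · tauto
  · rcases h with ⟨l1, ⟨-, rfl⟩, hl⟩ | rfl | rfl | ⟨l1, ⟨-, rfl⟩, hl⟩
    · simp only [List.mem_cons, List.not_mem_nil, or_false] at hl
      rcases hl with rfl | rfl
      · exact key _ _ _ _ _ hxl (Or.inl rfl) (by simp)
      · exact key _ _ _ _ _ hxl (Or.inr rfl) (by simp)
    · exact key _ _ _ _ _ hxl (Or.inl rfl) (by simp)
    · exact key _ _ _ _ _ hxl (Or.inr rfl) (by simp)
    · simp only [List.mem_cons, List.not_mem_nil, or_false] at hl
      rcases hl with rfl | rfl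
      · exact key _ _ _ _ _ hxl (Or.inl rfl) (by simp)
      · exact key _ _ _ _ _ hxl (Or.inr rfl) (by simp)

/-- digits are at most the upper left entry -/
theorem digit_le (v : List ℕ) (hv : ∀ a ∈ v, 1 ≤ a) : ∀ x ∈ v, (x : ℤ) ≤ M v 0 0 := by
  induction v with
  | nil => intro x hx; simp at hx
  | cons a v ih =>
    intro x hx
    have ha : (1 : ℤ) ≤ a := by exact_mod_cast hv a List.mem_cons_self
    have hv' : ∀ b ∈ v, 1 ≤ b := fun b hb => hv b (List.mem_cons_of_mem _ hb)
    obtain ⟨h1, -, h3, -⟩ := M_entries v hv'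
    have e : M (a :: v) 0 0 = a * M v 0 0 + M v 1 0 := by
      rw [M_cons, Matrix.mul_apply, Fin.sum_univ_two]
      simp only [mat, Matrix.of_apply, Matrix.cons_val', Matrix.cons_val_zero,
        Matrix.cons_val_one, Matrix.cons_val_fin_one]
      ring
    rw [e]
    rcases List.mem_cons.1 hx with rfl | hx
    · nlinarith
    · have := ih hv' x hx
      nlinarith

/-- the Pell equation -/
theorem pell (d : ℕ) (hd2 : 2 ≤ d) (hd : Squarefree d) (P : ℤ) (hP : 0 < P) :
    ∃ x y : ℤ, 0 < x ∧ 0 < y ∧ x ^ 2 - (d : ℤ) * P ^ 2 * y ^ 2 = 1 := by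
  have hns : ¬ IsSquare ((d : ℤ) * P ^ 2) := by
    rintro ⟨s, hs⟩
    have h1 : P ^ 2 ∣ s ^ 2 := ⟨d, by rw [sq s, ← hs]; ring⟩
    obtain ⟨t, rfl⟩ := (Int.pow_dvd_pow_iff two_ne_zero).1 h1
    have h2 : (d : ℤ) = t * t := by
      have : P ^ 2 * (d : ℤ) = P ^ 2 * (t * t) := by linear_combination hs
      exact mul_left_cancel₀ (pow_ne_zero 2 hP.ne') this
    have h3 : d = t.natAbs * t.natAbs := by
      have := congrArg Int.natAbs h2
      rwa [Int.natAbs_natCast, Int.natAbs_mul] at this
    have h4 : IsUnit t.natAbs := hd t.natAbs ⟨1, by rw [mul_one]; exact h3⟩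
    rw [Nat.isUnit_iff] at h4
    rw [h4] at h3
    omega
  have hpos : (0 : ℤ) < (d : ℤ) * P ^ 2 := by
    have : (0 : ℤ) < d := by exact_mod_cast (by omega : 0 < d)
    positivity
  obtain ⟨x, y, hxy, hy⟩ := Pell.exists_of_not_isSquare hpos hns
  refine ⟨|x|, |y|, ?_, abs_pos.2 hy, by rw [sq_abs, sq_abs]; exact hxy⟩
  rw [abs_pos]
  rintro rfl
  have : 0 < y ^ 2 := by positivity
  nlinarith

/-- D lists the partial quotients, after the integer part, of a number p + q sqrt d with
p, q rational and q nonzero -/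
def Quotients (d : ℕ) (D : ℕ → ℕ) : Prop :=
  ∃ p q : ℚ, q ≠ 0 ∧ ∀ n : ℕ,
    (GenContFract.of ((p : ℝ) + (q : ℝ) * Real.sqrt (d : ℝ))).partDens.get? n =
      some ((D n : ℕ) : ℝ)

/-- D is purely periodic with minimal period L -/
def MinPeriod (D : ℕ → ℕ) (L : ℕ) : Prop :=
  IsLeast {l : ℕ | 0 < l ∧ ∀ n, D (n + l) = D n} L

/-- D consists of pieces: four connecting digits, of which at least three are 1 or 2, and
then the word v or its reverse -/
def Pieces (v : List ℕ) (D : ℕ → ℕ) : Prop :=
  ∀ k : ℕ,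
    (∃ i < 4, ∀ r < 4, r ≠ i →
      D ((v.length + 4) * k + r) = 1 ∨ D ((v.length + 4) * k + r) = 2) ∧
    ((List.range v.length).map (fun r => D ((v.length + 4) * k + 4 + r)) = v ∨
      (List.range v.length).map (fun r => D ((v.length + 4) * k + 4 + r)) = v.reverse)

theorem minPeriod_word (v : List ℕ) (c c' j : ℕ) (h1 : 2 < c') (hc : c < c')
    (hv : ∀ x ∈ v, x < c') :
    MinPeriod (fun n => (word v c c' j).getD (n % (word v c c' j).length) 0)
      (word v c c' j).length := by
  set w := word v c c' j with hw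
  have hL : 0 < w.length := by rw [hw, word_length]; positivity
  have h3 : 3 ≤ w.length := by rw [hw, word_eq]; simp
  refine ⟨⟨hL, fun n => by simp only [Nat.add_mod_right]⟩, ?_⟩
  rintro l ⟨hl, hper⟩
  by_contra hlt
  rw [not_le] at hlt
  have hocc : ∀ i, i < w.length → w.getD i 0 = c' → i = 2 := by
    intro i hi he
    rw [hw, word_eq] at he hi
    match i with
    | 0 => simp at he; omega
    | 1 => simp at he; omega
    | 2 => rfl
    | i + 3 =>
      exfalso
      simp only [List.getD_cons_succ] at he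
      simp only [List.length_cons, add_lt_add_iff_right] at hi
      rw [List.getD_eq_getElem _ _ (by omega)] at he
      have hmem := List.getElem_mem (l := rest v c j) (n := i) (by omega)
      rw [he] at hmem
      rcases rest_mem v c j c' hmem with h | h | h | h
      · omega
      · omega
      · omega
      · exact absurd (hv _ h) (lt_irrefl _)
  have hp := hper 2
  simp only at hp
  have h2 : w.getD (2 % w.length) 0 = c' := by
    rw [Nat.mod_eq_of_lt (by omega), hw, word_eq]
    rfl
  rw [h2] at hp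
  have hi := hocc _ (Nat.mod_lt _ hL) hp
  have h5 : (2 + l) % w.length = 2 % w.length := by
    rw [hi, Nat.mod_eq_of_lt (by omega)]
  have h6 : l % w.length = 0 := by
    have h7 : 2 + l ≡ 2 + 0 [MOD w.length] := h5
    exact Nat.ModEq.add_left_cancel' 2 h7
  rw [Nat.mod_eq_of_lt hlt] at h6
  omega

theorem pieces_word (v : List ℕ) (c c' j : ℕ) :
    Pieces v (fun n => (word v c c' j).getD (n % (word v c c' j).length) 0) := by
  intro k
  set m := v.length + 4 with hm
  have hlen : (word v c c' j).length = m * (4 * (j + 1)) := word_length v c c' j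
  set k' := k % (4 * (j + 1)) with hk'
  have hk : k' < (pieces v c c' j).length := by
    rw [pieces_length]; exact Nat.mod_lt _ (by positivity)
  have hg : Good v ((pieces v c c' j).getD k' []) := by
    rw [List.getD_eq_getElem _ _ hk]
    exact pieces_good v c c' j _ (List.getElem_mem hk)
  set pc := (pieces v c c' j).getD k' [] with hpc
  have hval : ∀ r, r < m →
      (word v c c' j).getD ((m * k + r) % (word v c c' j).length) 0 = pc.getD r 0 := by
    intro r hr
    have e : (m * k + r) % (word v c c' j).length = m * k' + r := by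
      rw [hlen, Nat.mod_mul]
      have e1 : (m * k + r) % m = r := by
        rw [Nat.mul_add_mod, Nat.mod_eq_of_lt hr]
      have e2 : (m * k + r) / m = k := by
        rw [Nat.mul_add_div (by omega), Nat.div_eq_of_lt hr, add_zero]
      rw [e1, e2]
      ring
    rw [e, word]
    exact flatten_getD m _ (fun p hp => (pieces_good v c c' j p hp).1) k' r hk hr
  obtain ⟨g1, ⟨i, hi, g2⟩, g3⟩ := hg
  refine ⟨⟨i, hi, fun r hr hri => ?_⟩, ?_⟩
  · simp only
    rw [hval r (by omega)]
    exact g2 r hr hri
  · have e : (List.range v.length).map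
        (fun r => (fun n => (word v c c' j).getD (n % (word v c c' j).length) 0)
          (m * k + 4 + r)) = pc.drop 4 := by
      apply List.ext_getElem
      · rw [List.length_map, List.length_range, List.length_drop, g1]; omega
      · intro r h1 h2
        rw [List.length_map, List.length_range] at h1
        rw [List.getElem_map, List.getElem_range, List.getElem_drop]
        simp only
        rw [add_assoc, hval (4 + r) (by omega), List.getD_eq_getElem _ _ (by omega)]
    rw [e]
    exact g3

theorem main (d : ℕ) (hd2 : 2 ≤ d) (hd : Squarefree d) (v : List ℕ) (hv : ∀ a ∈ v, 1 ≤ a)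
    (hev : Even v.length) :
    ∃ c c' : ℕ, ∀ K : ℕ, ∃ (D : ℕ → ℕ) (L : ℕ), Quotients d D ∧ MinPeriod D L ∧ K ≤ L ∧
      (∀ n, D n = 1 ∨ D n = 2 ∨ D n = c ∨ D n = c' ∨ D n ∈ v) ∧ Pieces v D := by
  have hN : (M v).det = 1 := by rw [M_det, hev.neg_one_pow]
  obtain ⟨h00, h01, h10, h11, -, -⟩ := M_entries v hv
  have hpp : 0 < pp (M v) := by unfold pp; linarith
  have hbig : M v 0 0 < pp (M v) := by unfold pp; linarith
  have hpp4 : 4 ≤ pp (M v) := by unfold pp; linarith
  have hP : (0 : ℤ) < 2 * (pp (M v)) ^ 2 := by positivity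
  obtain ⟨x, y, hx, hy, hxy⟩ := pell d hd2 hd (2 * (pp (M v)) ^ 2) hP
  have hdZ : (2 : ℤ) ≤ d := by exact_mod_cast hd2
  set P : ℤ := 2 * (pp (M v)) ^ 2 with hPdef
  have hPp : pp (M v) < P := by rw [hPdef]; nlinarith
  have hx2 : P ^ 2 < x ^ 2 := by
    have h1 : P ^ 2 * 1 ≤ P ^ 2 * (d * y ^ 2) := by
      apply mul_le_mul_of_nonneg_left _ (by positivity)
      have : 1 ≤ y ^ 2 := by nlinarith
      nlinarith
    nlinarith
  have hy2 : 1 ≤ y ^ 2 := by nlinarith
  have hdy : 2 ≤ (d : ℤ) * y ^ 2 := by nlinarith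
  have hPP : P < P ^ 2 := by nlinarith
  have hc0 : 0 < 4 * (d : ℤ) * P * y ^ 2 - 1 := by nlinarith
  have hcc' : 4 * (d : ℤ) * P * y ^ 2 - 1 < 8 * d * x ^ 2 * y ^ 2 - 1 := by nlinarith
  have hPc : P < 8 * (d : ℤ) * x ^ 2 * y ^ 2 - 1 := by nlinarith
  obtain ⟨c, hc⟩ := Int.eq_ofNat_of_zero_le hc0.le
  obtain ⟨c', hc'⟩ := Int.eq_ofNat_of_zero_le (hc0.trans hcc').le
  refine ⟨c, c', fun K => ?_⟩
  have hcc : c < c' := by
    have : (c : ℤ) < c' := by rw [← hc, ← hc']; exact hcc'
    exact_mod_cast this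
  have hPc' : P < (c' : ℤ) := by rw [← hc']; exact hPc
  have h2c : 2 < c' := by
    have : (2 : ℤ) < c' := by linarith
    exact_mod_cast this
  have hvc : ∀ a ∈ v, a < c' := by
    intro a ha
    have := digit_le v hv a ha
    have h : (a : ℤ) < c' := by linarith
    exact_mod_cast h
  have hcpos : 1 ≤ c := by
    have : (0 : ℤ) < c := by rw [← hc]; exact hc0
    exact_mod_cast this
  obtain ⟨f, hf, hfd⟩ := disc (M v) hN c c' K d x y hpp hx hy (by omega) hxy hc.symm hc'.symm
  have hwmem : ∀ a ∈ word v c c' K, a = 1 ∨ a = 2 ∨ a = c ∨ a = c' ∨ a ∈ v := by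
    intro a ha
    rw [word_eq] at ha
    simp only [List.mem_cons] at ha
    rcases ha with h | h | h | h
    · tauto
    · tauto
    · tauto
    · have := rest_mem v c K a h
      tauto
  have hw1 : ∀ a ∈ word v c c' K, 1 ≤ a := by
    intro a ha
    rcases hwmem a ha with h | h | h | h | h
    · omega
    · omega
    · omega
    · omega
    · exact hv a h
  have hlen := word_length v c c' K
  have hne : word v c c' K ≠ [] := by rw [word_eq]; simp
  have heven : Even (word v c c' K).length := by
    rw [hlen]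
    exact ⟨(v.length + 4) * (2 * (K + 1)), by ring⟩
  obtain ⟨p, q, hq, hpq⟩ := field_word (word v c c' K) d f hw1 hne heven hf
    (by rw [M_word]; exact hfd)
  refine ⟨fun n => (word v c c' K).getD (n % (word v c c' K).length) 0,
    (word v c c' K).length, ⟨p, q, hq, hpq⟩, minPeriod_word v c c' K h2c hcc hvc, ?_, ?_,
    pieces_word v c c' K⟩
  · rw [hlen]; nlinarith
  · intro n
    have hL : 0 < (word v c c' K).length := List.length_pos_iff.2 hne
    have hlt := Nat.mod_lt n hL
    simp only
    rw [List.getD_eq_getElem _ _ hlt]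
    exact hwmem _ (List.getElem_mem hlt)

end Pool.Agent.Helper31.QB
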