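import Pool.Agent.Helper31.QB.Mat

/-!
# The words: pieces, digits, matrix, period
-/

set_option autoImplicit false

open scoped Matrix

namespace Pool.Agent.Helper31.QB

open Pool.Agent.Helper23.QF

/-- the matrix of a flattened list -/
theorem M_flatten (ps : List (List ℕ)) : M ps.flatten = (ps.map M).prod := by
  induction ps with
  | nil => rfl
  | cons p ps ih => rw [List.flatten_cons, M_append, ih, List.map_cons, List.prod_cons]

theorem flatten_getD (m : ℕ) (ps : List (List ℕ)) (hm : ∀ p ∈ ps, p.length = m) (k r : ℕ)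
    (hk : k < ps.length) (hr : r < m) :
    ps.flatten.getD (m * k + r) 0 = (ps.getD k []).getD r 0 := by
  induction ps generalizing k with
  | nil => simp at hk
  | cons p ps ih =>
    have hp : p.length = m := hm p List.mem_cons_self
    rw [List.flatten_cons]
    cases k with
    | zero =>
      rw [Nat.mul_zero, Nat.zero_add, List.getD_append _ _ _ _ (by omega)]
      rfl
    | succ k =>
      rw [List.getD_append_right _ _ _ _ (by rw [hp]; nlinarith)]
      have e : m * (k + 1) + r - p.length = m * k + r := by
        rw [hp, Nat.mul_succ]; omega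
      rw [e, ih (fun q hq => hm q (List.mem_cons_of_mem _ hq)) k (by simpa using hk)]
      rfl

theorem flatten_length (m : ℕ) (ps : List (List ℕ)) (hm : ∀ p ∈ ps, p.length = m) :
    ps.flatten.length = m * ps.length := by
  induction ps with
  | nil => rfl
  | cons p ps ih =>
    rw [List.flatten_cons, List.length_append, hm p List.mem_cons_self,
      ih (fun q hq => hm q (List.mem_cons_of_mem _ hq)), List.length_cons, Nat.mul_succ]
    omega

/-- the pieces of the period -/
def pieces (v : List ℕ) (c c' j : ℕ) : List (List ℕ) :=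
  ([1, 1, c', 2] ++ v) :: ([2, 1, 1, 1] ++ v.reverse) ::
    ((List.replicate j [[1, 1, c, 2] ++ v, [2, 1, 1, 1] ++ v.reverse]).flatten ++
      (([2, 1, 1, 1] ++ v) :: ([1, 1, 1, 2] ++ v.reverse) ::
        (List.replicate j [[2, c, 1, 1] ++ v, [1, 1, 1, 2] ++ v.reverse]).flatten))

/-- a good piece: four connecting digits, at least three of them 1 or 2, then the word or
its reverse -/
def Good (v : List ℕ) (p : List ℕ) : Prop :=
  p.length = v.length + 4 ∧
    (∃ i < 4, ∀ r < 4, r ≠ i → p.getD r 0 = 1 ∨ p.getD r 0 = 2) ∧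
      (p.drop 4 = v ∨ p.drop 4 = v.reverse)

theorem good_cons (v : List ℕ) (a b c e : ℕ) (u : List ℕ) (hu : u = v ∨ u = v.reverse)
    (h : ∃ i < 4, ∀ r < 4, r ≠ i → [a, b, c, e].getD r 0 = 1 ∨ [a, b, c, e].getD r 0 = 2) :
    Good v ([a, b, c, e] ++ u) := by
  refine ⟨?_, ?_, ?_⟩
  · rcases hu with rfl | rfl <;> simp
  · obtain ⟨i, hi, h⟩ := h
    refine ⟨i, hi, fun r hr hri => ?_⟩
    rw [List.getD_append _ _ _ _ (by simpa using hr)]
    exact h r hr hri
  · simpa using hu

theorem pieces_good (v : List ℕ) (c c' j : ℕ) : ∀ p ∈ pieces v c c' j, Good v p := by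
  intro p hp
  simp only [pieces, List.mem_cons, List.mem_append, List.mem_flatten, List.mem_replicate] at hp
  rcases hp with rfl | rfl | ⟨l, ⟨-, rfl⟩, hp⟩ | rfl | rfl | ⟨l, ⟨-, rfl⟩, hp⟩
  · refine good_cons v _ _ _ _ _ (Or.inl rfl) ⟨2, by norm_num, fun r hr hri => ?_⟩
    interval_cases r <;> simp_all
  · refine good_cons v _ _ _ _ _ (Or.inr rfl) ⟨2, by norm_num, fun r hr hri => ?_⟩
    interval_cases r <;> simp_all
  · simp only [List.mem_cons, List.not_mem_nil, or_false] at hp
    rcases hp with rfl | rfl
    · refine good_cons v _ _ _ _ _ (Or.inl rfl) ⟨2, by norm_num, fun r hr hri => ?_⟩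
      interval_cases r <;> simp_all
    · refine good_cons v _ _ _ _ _ (Or.inr rfl) ⟨2, by norm_num, fun r hr hri => ?_⟩
      interval_cases r <;> simp_all
  · refine good_cons v _ _ _ _ _ (Or.inl rfl) ⟨2, by norm_num, fun r hr hri => ?_⟩
    interval_cases r <;> simp_all
  · refine good_cons v _ _ _ _ _ (Or.inr rfl) ⟨2, by norm_num, fun r hr hri => ?_⟩
    interval_cases r <;> simp_all
  · simp only [List.mem_cons, List.not_mem_nil, or_false] at hp
    rcases hp with rfl | rfl
    · refine good_cons v _ _ _ _ _ (Or.inl rfl) ⟨1, by norm_num, fun r hr hri => ?_⟩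
      interval_cases r <;> simp_all
    · refine good_cons v _ _ _ _ _ (Or.inr rfl) ⟨2, by norm_num, fun r hr hri => ?_⟩
      interval_cases r <;> simp_all

theorem pieces_length (v : List ℕ) (c c' j : ℕ) : (pieces v c c' j).length = 4 * (j + 1) := by
  simp only [pieces, List.length_cons, List.length_append, List.length_flatten,
    List.map_replicate, List.sum_replicate, smul_eq_mul, List.length_nil]
  ring

/-- the period -/
def word (v : List ℕ) (c c' j : ℕ) : List ℕ := (pieces v c c' j).flatten

theorem word_length (v : List ℕ) (c c' j : ℕ) :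
    (word v c c' j).length = (v.length + 4) * (4 * (j + 1)) := by
  rw [word, flatten_length (v.length + 4) _ (fun p hp => (pieces_good v c c' j p hp).1),
    pieces_length]

theorem M_rep (j : ℕ) (p q : List ℕ) :
    (((List.replicate j [p, q]).flatten).map M).prod = (M p * M q) ^ j := by
  induction j with
  | zero => simp
  | succ j ih =>
    rw [List.replicate_succ, List.flatten_cons, List.map_append, List.prod_append, ih, pow_succ']
    simp

theorem M_word (v : List ℕ) (c c' j : ℕ) : M (word v c c' j) = Big (M v) c c' j := by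
  have h4 : ∀ (a b c e : ℕ) (u : List ℕ), M ([a, b, c, e] ++ u) =
      mat a * mat b * mat c * mat e * M u := by
    intro a b c e u
    rw [M_append, M_cons, M_cons, M_cons, M_singleton]
    simp only [Matrix.mul_assoc]
  rw [word, M_flatten, pieces, List.map_cons, List.prod_cons, List.map_cons, List.prod_cons,
    List.map_append, List.prod_append, M_rep, List.map_cons, List.prod_cons, List.map_cons,
    List.prod_cons, M_rep]
  rw [h4, h4, h4, h4, h4, h4, M_reverse, Big, R, A2]
  simp only [SS, GG, Matrix.mul_assoc]

end Pool.Agent.Helper31.QB
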