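import Pool.Agent.Helper23.QF.Defs

/-!
# Folding identities for 2 by 2 matrices
-/

set_option autoImplicit false

open scoped Matrix

namespace Pool.Agent.Helper31.QB

open Pool.Agent.Helper23.QF

abbrev Mt := Matrix (Fin 2) (Fin 2) ℤ

theorem tr_fin (N : Mt) : Nᵀ = !![N 0 0, N 1 0; N 0 1, N 1 1] := by
  ext i j
  fin_cases i <;> fin_cases j <;> rfl

/-- Cayley-Hamilton for determinant one -/
theorem ch (B : Mt) (T : ℤ) (hdet : B.det = 1) (htr : B.trace = T) : B * B = T • B - 1 := by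
  rw [Matrix.det_fin_two] at hdet
  rw [Matrix.trace_fin_two] at htr
  subst htr
  ext i j
  fin_cases i <;> fin_cases j <;>
    simp only [Matrix.mul_apply, Fin.sum_univ_two, Matrix.sub_apply, Matrix.smul_apply,
      smul_eq_mul, Fin.zero_eta, Fin.mk_one, Matrix.one_apply_eq, ne_eq, zero_ne_one,
      not_false_eq_true, Matrix.one_apply_ne, one_ne_zero]
  · linear_combination -hdet
  · ring
  · ring
  · linear_combination -hdet

/-- powers of a matrix of determinant one -/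
theorem pow_form (B : Mt) (T : ℤ) (hB : B * B = T • B - 1) (hT : 2 ≤ T) (k : ℕ) :
    ∃ U U' : ℤ, B ^ (k + 1) = U • B - U' • (1 : Mt) ∧ U ^ 2 - T * U * U' + U' ^ 2 = 1 ∧
      0 ≤ U' ∧ U' < U := by
  induction k with
  | zero =>
    refine ⟨1, 0, ?_, by ring, le_rfl, by norm_num⟩
    rw [zero_add, pow_one, one_smul, zero_smul, sub_zero]
  | succ k ih =>
    obtain ⟨U, U', h1, h2, h3, h4⟩ := ih
    refine ⟨T * U - U', U, ?_, ?_, by linarith, by nlinarith⟩
    · rw [pow_succ, h1, sub_mul, Matrix.smul_mul, hB, Matrix.smul_mul, one_mul, smul_sub,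
        smul_smul, sub_smul]
      rw [mul_comm U T]
      abel
    · linear_combination h2

/-- the two digit matrices -/
theorem m1_eq : mat 1 = !![1, 1; 1, 0] := by simp [mat]
theorem m2_eq : mat 2 = !![2, 1; 1, 0] := by simp [mat]

abbrev SS : Mt := mat 1 * mat 1
abbrev EE : Mt := !![1, 1; 0, -1]
abbrev FF : Mt := !![2, 1; -1, 0]
abbrev GG : Mt := mat 2 * mat 1 * mat 1 * mat 1

theorem SS_eq : SS = !![2, 1; 1, 1] := by
  rw [SS, m1_eq, Matrix.mul_fin_two]; norm_num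

theorem m2_EE : mat 2 * EE = SS := by
  rw [SS_eq, m2_eq, Matrix.mul_fin_two]; norm_num

theorem GG_eq : GG = !![8, 5; 3, 2] := by
  rw [GG, m1_eq, m2_eq, Matrix.mul_fin_two, Matrix.mul_fin_two, Matrix.mul_fin_two]; norm_num

theorem GG_fac : GG = SS * FF * SS := by
  rw [GG_eq, SS_eq, Matrix.mul_fin_two, Matrix.mul_fin_two]; norm_num

/-- the right part of the first period -/
def R (N : Mt) : Mt := mat 2 * N * GG * Nᵀ

/-- the number P of the word -/
def pp (N : Mt) : ℤ := 4 * N 0 0 + 2 * N 1 0 + 2 * N 0 1 + N 1 1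

theorem RS_aux (a b c e : ℤ) (h : a * e - b * c = 1) :
    (mat 2 * !![a, b; c, e] * GG * !![a, c; b, e] * SS) 0 0 =
      2 * (4 * a + 2 * c + 2 * b + e) ^ 2 ∧
    (mat 2 * !![a, b; c, e] * GG * !![a, c; b, e] * SS) 0 1 +
    (mat 2 * !![a, b; c, e] * GG * !![a, c; b, e] * SS) 1 0 =
      2 * (4 * a + 2 * c + 2 * b + e) ^ 2 + 2 := by
  rw [GG_eq, SS_eq, m2_eq]
  simp only [Matrix.mul_fin_two]
  simp only [Matrix.of_apply, Matrix.cons_val', Matrix.cons_val_zero, Matrix.cons_val_one,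
    Matrix.cons_val_fin_one]
  constructor
  · ring
  · linear_combination (2 : ℤ) * h

theorem first_period (N : Mt) (hN : N.det = 1) (c : ℕ) :
    (R N * SS) 0 0 = 2 * (pp N) ^ 2 ∧
      (mat c * (R N * SS)).trace = (c + 1) * (2 * (pp N) ^ 2) + 2 := by
  rw [Matrix.det_fin_two] at hN
  have h := RS_aux (N 0 0) (N 0 1) (N 1 0) (N 1 1) hN
  rw [← Matrix.eta_fin_two N, ← tr_fin N] at h
  have e : mat 2 * N * GG * Nᵀ * SS = R N * SS := rfl
  rw [e] at h
  obtain ⟨h1, h2⟩ := h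
  refine ⟨h1, ?_⟩
  rw [Matrix.trace_fin_two, Matrix.mul_apply, Matrix.mul_apply, Fin.sum_univ_two,
    Fin.sum_univ_two]
  simp only [mat, Matrix.of_apply, Matrix.cons_val', Matrix.cons_val_zero, Matrix.cons_val_one,
    Matrix.cons_val_fin_one]
  rw [h1]
  simp only [pp]
  linear_combination h2

/-- the right part of the whole period -/
def Y (N : Mt) (c j : ℕ) : Mt := R N * (SS * mat c * R N) ^ j

theorem CYS (N : Mt) (c j : ℕ) :
    mat c * (Y N c j * SS) = (mat c * (R N * SS)) ^ (j + 1) := by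
  induction j with
  | zero => simp [Y]
  | succ j ih =>
    rw [pow_succ (mat c * (R N * SS)) (j + 1), ← ih]
    simp only [Y, pow_succ, Matrix.mul_assoc]

/-- the left part after transposition -/
def A2 (N : Mt) : Mt := N * (mat 1 * mat 1 * mat 1 * mat 2) * Nᵀ

theorem R_tr (N : Mt) : (R N)ᵀ = A2 N * mat 2 := by
  simp only [R, A2, GG, Matrix.transpose_mul, Matrix.transpose_transpose, mat_transpose,
    Matrix.mul_assoc]

theorem Y_tr (N : Mt) (c j : ℕ) :
    (Y N c j)ᵀ * EE = A2 N * (mat 2 * mat c * SS * A2 N) ^ j * SS := by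
  have h1 : (Y N c j)ᵀ = A2 N * (mat 2 * mat c * SS * A2 N) ^ j * mat 2 := by
    rw [Y, Matrix.transpose_mul, Matrix.transpose_pow, R_tr]
    have h2 : (SS * mat c * R N)ᵀ = A2 N * (mat 2 * mat c * SS) := by
      rw [Matrix.transpose_mul, Matrix.transpose_mul, R_tr]
      simp only [SS, Matrix.transpose_mul, mat_transpose, Matrix.mul_assoc]
    rw [h2]
    induction j with
    | zero => simp
    | succ j ih =>
      rw [pow_succ', Matrix.mul_assoc, ih, pow_succ']
      simp only [Matrix.mul_assoc]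
  rw [h1, Matrix.mul_assoc, m2_EE]

theorem mat_low (c : ℕ) (X : Mt) : (mat c * X) 1 0 = X 0 0 := by
  rw [Matrix.mul_apply, Fin.sum_univ_two]
  simp only [mat, Matrix.of_apply, Matrix.cons_val', Matrix.cons_val_zero, Matrix.cons_val_one,
    Matrix.cons_val_fin_one]
  ring

theorem V_trace (a b c e : ℤ) (h : a * e - b * c = -1) (k : ℕ) :
    (mat k * (!![a, b; c, e] * FF * !![a, c; b, e] * EE)).trace = 2 * (k + 1) * a ^ 2 + 2 := by
  rw [Matrix.trace_fin_two, mat]
  simp only [Matrix.mul_fin_two]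
  simp only [Matrix.of_apply, Matrix.cons_val', Matrix.cons_val_zero, Matrix.cons_val_one,
    Matrix.cons_val_fin_one]
  linear_combination (-2 : ℤ) * h

theorem V_trace' (V : Mt) (h : V.det = -1) (k : ℕ) :
    (mat k * (V * FF * Vᵀ * EE)).trace = 2 * (k + 1) * (V 0 0) ^ 2 + 2 := by
  rw [Matrix.det_fin_two] at h
  have h1 := V_trace (V 0 0) (V 0 1) (V 1 0) (V 1 1) h k
  rwa [← Matrix.eta_fin_two V, ← tr_fin V] at h1

/-- the matrix of the whole period, as a product -/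
def Big (N : Mt) (c c' j : ℕ) : Mt :=
  (SS * mat c' * R N * (SS * mat c * R N) ^ j) * (GG * A2 N * (mat 2 * mat c * SS * A2 N) ^ j)

theorem det_SS : SS.det = 1 := by rw [SS_eq, Matrix.det_fin_two_of]; norm_num
theorem det_GG : GG.det = 1 := by rw [GG_eq, Matrix.det_fin_two_of]; norm_num

theorem det_R (N : Mt) (hN : N.det = 1) : (R N).det = -1 := by
  rw [R, Matrix.det_mul, Matrix.det_mul, Matrix.det_mul, Matrix.det_transpose, hN, det_GG,
    mat_det]
  norm_num

theorem big_trace (N : Mt) (hN : N.det = 1) (c c' j : ℕ) :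
    (Big N c c' j).trace =
      2 * (c' + 1) * (((mat c * (R N * SS)) ^ (j + 1)) 1 0) ^ 2 + 2 := by
  have hV : (Y N c j * SS).det = -1 := by
    rw [Y, Matrix.det_mul, Matrix.det_mul, Matrix.det_pow, Matrix.det_mul, Matrix.det_mul,
      det_R N hN, det_SS, mat_det]
    norm_num
  have h1 : (Y N c j * SS) 0 0 = ((mat c * (R N * SS)) ^ (j + 1)) 1 0 := by
    rw [← CYS, mat_low]
  rw [← h1, ← V_trace' _ hV c']
  have h2 : Big N c c' j =
      SS * (mat c' * (Y N c j) * GG * (A2 N * (mat 2 * mat c * SS * A2 N) ^ j)) := by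
    simp only [Big, Y, Matrix.mul_assoc]
  have h3 : mat c' * (Y N c j) * GG * (A2 N * (mat 2 * mat c * SS * A2 N) ^ j) * SS =
      mat c' * (Y N c j * SS * FF * (Y N c j * SS)ᵀ * EE) := by
    rw [Matrix.mul_assoc _ _ SS, ← Y_tr, Matrix.transpose_mul, GG_fac]
    have h4 : SSᵀ = SS := by
      simp only [SS, Matrix.transpose_mul, mat_transpose]
    rw [h4]
    simp only [Matrix.mul_assoc]
  rw [h2, Matrix.trace_mul_comm, h3]

/-- the final arithmetic: the discriminant of the trace -/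
theorem disc (N : Mt) (hN : N.det = 1) (c c' j : ℕ) (d : ℕ) (x y : ℤ)
    (hP : 0 < pp N) (hx : 0 < x) (hy : 0 < y) (hd : 0 < d)
    (hpell : x ^ 2 - (d : ℤ) * (2 * (pp N) ^ 2) ^ 2 * y ^ 2 = 1)
    (hc : (c : ℤ) = 4 * d * (2 * (pp N) ^ 2) * y ^ 2 - 1)
    (hc' : (c' : ℤ) = 8 * d * x ^ 2 * y ^ 2 - 1) :
    ∃ f : ℕ, 0 < f ∧ (d : ℤ) * (f : ℤ) ^ 2 = (Big N c c' j).trace ^ 2 - 4 := by
  set P : ℤ := 2 * (pp N) ^ 2 with hPdef
  have hPpos : 0 < P := by positivity
  obtain ⟨h1, h2⟩ := first_period N hN c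
  set B : Mt := mat c * (R N * SS) with hB
  set T : ℤ := (c + 1) * P + 2 with hT
  have hdet : B.det = 1 := by
    rw [hB, Matrix.det_mul, Matrix.det_mul, det_R N hN, det_SS, mat_det]; norm_num
  have hT' : B.trace = T := h2
  have hcd : (0 : ℤ) < d := by exact_mod_cast hd
  have hTe : T = 4 * d * P ^ 2 * y ^ 2 + 2 := by rw [hT, hc]; ring
  have hT2 : 2 ≤ T := by rw [hTe]; nlinarith [mul_pos (mul_pos hcd (pow_pos hPpos 2)) (pow_pos hy 2)]
  obtain ⟨U, U', g1, g2, g3, g4⟩ := pow_form B T (ch B T hdet hT') hT2 j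
  have h10 : (B ^ (j + 1)) 1 0 = U * P := by
    rw [g1, Matrix.sub_apply, Matrix.smul_apply, Matrix.smul_apply]
    have h5 : B 1 0 = P := by
      rw [hB, mat_low, h1]
    rw [h5]
    simp
  have ht : (Big N c c' j).trace = (T ^ 2 - 4) * U ^ 2 + 2 := by
    rw [big_trace N hN, ← hB, h10, hc', hTe]
    linear_combination (16 * (d : ℤ) * y ^ 2 * U ^ 2 * P ^ 2) * hpell
  have hU : 0 < U := by linarith
  have hUT : 0 < U * T - 2 * U' := by nlinarith
  refine ⟨(2 * (2 * x * P * y) * U * (U * T - 2 * U')).toNat, ?_, ?_⟩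
  · rw [Int.lt_toNat]
    push_cast
    positivity
  · rw [Int.toNat_of_nonneg (by positivity), ht]
    have e1 : T ^ 2 - 4 = 4 * d * (2 * x * P * y) ^ 2 := by
      rw [hTe]
      linear_combination (-16 * (d : ℤ) * P ^ 2 * y ^ 2) * hpell
    have e2 : (T ^ 2 - 4) * U ^ 2 + 4 = (U * T - 2 * U') ^ 2 := by
      linear_combination (-4 : ℤ) * g2
    have e3 : ((T ^ 2 - 4) * U ^ 2 + 2) ^ 2 - 4 =
        ((T ^ 2 - 4) * U ^ 2) * ((T ^ 2 - 4) * U ^ 2 + 4) := by ring
    rw [e3, e2, e1]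
    ring

end Pool.Agent.Helper31.QB
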